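import Pool.Agent.Q266.VG.Stm

/-!
# Project VG (MP_215da1_al): job KFIVE

For `5 x 5` matrices over the field with 7 elements, a homomorphism `ρ` from the free group with
`ρ w - 1 ∈ N^1` for every word kills `γ_5` and `V`.
-/

namespace Pool.Agent.Q181.VG

open Pool.Agent.Q266.VG
open scoped commutatorElement

/-- powers go up in the filtration -/
theorem isN_pow {d : ℕ} {X : Mat d} (h : IsN d 1 X) : ∀ k : ℕ, 1 ≤ k → IsN d k (X ^ k) := by
  intro k hk
  induction k, hk using Nat.le_induction with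
  | base => rw [pow_one]; exact h
  | succ k _ ih => rw [pow_succ]; exact ih.mul h

/-- a unit in `1 + N^5` is 1 -/
theorem unit_eq_one {g : (Mat 5)ˣ} {k : ℕ} (hk : 5 ≤ k) (h : IsN 5 k ((g : Mat 5) - 1)) :
    g = 1 := by
  have h0 : (g : Mat 5) - 1 = 0 := h.eq_zero hk
  apply Units.ext
  rw [Units.val_one]
  exact sub_eq_zero.mp h0

/-- the 7th power of a unit in `1 + N^1` is 1 -/
theorem pow_seven_eq_one (g : (Mat 5)ˣ) (h : IsN 5 1 ((g : Mat 5) - 1)) : g ^ 7 = 1 := by
  have : Fact (Nat.Prime 7) := ⟨by norm_num⟩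
  have : CharP (Mat 5) 7 := inferInstance
  have h7 : (g : Mat 5) ^ 7 - 1 = ((g : Mat 5) - 1) ^ 7 := by
    have hc : Commute (g : Mat 5) (1 : Mat 5) := Commute.one_right _
    have := sub_pow_char_of_commute 7 hc
    rw [this, one_pow]
  apply unit_eq_one (k := 7) (by norm_num)
  rw [Units.val_pow_eq_pow_val, h7]
  exact isN_pow h 7 (by norm_num)

/-- elements of `1 + N^4` commute with elements of `1 + N^1` -/
theorem commute_of_isN {g h : (Mat 5)ˣ} (hg : IsN 5 4 ((g : Mat 5) - 1))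
    (hh : IsN 5 1 ((h : Mat 5) - 1)) : g * h = h * g := by
  have h1 : ((g : Mat 5) - 1) * ((h : Mat 5) - 1) = 0 := (hg.mul hh).eq_zero (by norm_num)
  have h2 : ((h : Mat 5) - 1) * ((g : Mat 5) - 1) = 0 := (hh.mul hg).eq_zero (by norm_num)
  apply Units.ext
  rw [Units.val_mul, Units.val_mul]
  have e : (g : Mat 5) * (h : Mat 5) - (h : Mat 5) * (g : Mat 5) =
      ((g : Mat 5) - 1) * ((h : Mat 5) - 1) - ((h : Mat 5) - 1) * ((g : Mat 5) - 1) := by
    noncomm_ring
  rw [h1, h2, sub_zero] at e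
  exact sub_eq_zero.mp e

/-- JOB KFIVE. -/
theorem kfive : S_UNI → S_LEAD → S_FIL → S_LCS → S_KFIVE := by
  intro _ _ hfil hlcs ρ hρ
  -- the elements whose image commutes with the range of `ρ`
  let C : Subgroup F := (Subgroup.centralizer (Set.range ρ)).comap ρ
  have hmem : ∀ u : F, (∀ f : F, ρ f * ρ u = ρ u * ρ f) → u ∈ C := by
    intro u hu
    rw [Subgroup.mem_comap, Subgroup.mem_centralizer_iff]
    rintro _ ⟨f, rfl⟩
    exact hu f
  have hγ : ∀ w ∈ gam F 4, ρ w = 1 := fun w hw =>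
    unit_eq_one (k := 5) le_rfl (hfil F 5 ρ hρ 4 w hw)
  have hD : D2 F ≤ gam F 3 := by
    have h1 : derivedSeries F 1 = gam F 1 := by
      rw [derivedSeries_one]
      rfl
    have h2 : D2 F = ⁅derivedSeries F 1, derivedSeries F 1⁆ := derivedSeries_succ F 1
    rw [h2, h1]
    exact hlcs F 1 1
  have hU : U ≤ C := by
    unfold U
    refine sup_le ?_ (sup_le ?_ ?_)
    · rw [Subgroup.closure_le]
      rintro _ ⟨x, rfl⟩
      apply hmem
      intro f
      have : ρ (x ^ 7) = 1 := by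
        rw [map_pow]
        exact pow_seven_eq_one (ρ x) (hρ x)
      show ρ f * ρ (x ^ 7) = ρ (x ^ 7) * ρ f
      rw [this, mul_one, one_mul]
    · intro u hu
      apply hmem
      intro f
      exact (commute_of_isN (hfil F 5 ρ hρ 3 u (hD hu)) (hρ f)).symm
    · intro u hu
      apply hmem
      intro f
      rw [hγ u hu, mul_one, one_mul]
  have hV : V ≤ ρ.ker := by
    unfold V
    rw [Subgroup.commutator_le]
    intro u hu f _
    have hu' := hU hu
    rw [Subgroup.mem_comap, Subgroup.mem_centralizer_iff] at hu'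
    have hc : ρ f * ρ u = ρ u * ρ f := hu' (ρ f) ⟨f, rfl⟩
    rw [MonoidHom.mem_ker, map_commutatorElement, commutatorElement_eq_one_iff_mul_comm]
    exact hc.symm
  have hall : gam F 4 ⊔ V ≤ ρ.ker := sup_le (fun w hw => MonoidHom.mem_ker.mpr (hγ w hw)) hV
  intro v hv
  exact MonoidHom.mem_ker.mp (hall hv)

end Pool.Agent.Q181.VG
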